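import Mathlib

open Filter Topology

namespace Pool.Agent.Helper42.SAW.IntersectionExponent

/-- Self-avoiding walks of length `n` in `ℤ^d` started at the origin. -/
def SAW (d n : ℕ) : Set (Fin (n + 1) → (Fin d → ℤ)) :=
  {ω | ω 0 = 0 ∧ (∀ i : Fin n, ∑ j, (ω i.succ j - ω i.castSucc j) ^ 2 = 1) ∧ Function.Injective ω}

/-- `C_n`, the number of self-avoiding walks of length `n`. -/
noncomputable def C (d n : ℕ) : ℕ := (SAW d n).ncard

/-- the connective constant `μ = lim C_n^{1/n}` -/
noncomputable def mu (d : ℕ) : ℝ :=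
  limUnder atTop (fun n : ℕ => (C d n : ℝ) ^ ((1 : ℝ) / (n : ℝ)))

/-- `r_n = μ^{-n} C_n` -/
noncomputable def r (d n : ℕ) : ℝ := (C d n : ℝ) / (mu d) ^ n

/-- `\tilde r_n = C_{2n} / C_n^2` -/
noncomputable def rt (d n : ℕ) : ℝ := (C d (2 * n) : ℝ) / (C d n : ℝ) ^ 2

theorem unit_le {d : ℕ} {v : Fin d → ℤ} (h : ∑ j, v j ^ 2 = 1) (j : Fin d) : |v j| ≤ 1 := by
  have h1 : v j ^ 2 ≤ 1 := by
    rw [← h]; exact Finset.single_le_sum (f := fun j => v j ^ 2) (fun i _ => sq_nonneg _) (Finset.mem_univ j)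
  rw [abs_le]; constructor <;> nlinarith

theorem SAW_bound {d n : ℕ} {ω : Fin (n + 1) → (Fin d → ℤ)} (h : ω ∈ SAW d n) (i : Fin (n + 1))
    (j : Fin d) : |ω i j| ≤ i := by
  induction i using Fin.induction with
  | zero => simp [h.1]
  | succ i ih =>
    have h1 := unit_le (h.2.1 i) j
    have : ω i.succ j = (ω i.succ j - ω i.castSucc j) + ω i.castSucc j := by ring
    rw [this]
    refine (abs_add_le _ _).trans ?_
    have h2 : (((i.succ : Fin (n+1)) : ℕ) : ℤ) = 1 + ((i.castSucc : Fin (n+1)) : ℕ) := by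
      simp; ring
    rw [h2]
    exact add_le_add h1 ih

theorem SAW_finite (d n : ℕ) : (SAW d n).Finite := by
  have hfin : (Set.pi Set.univ (fun _ : Fin (n+1) =>
      Set.pi Set.univ (fun _ : Fin d => Set.Icc (-(n:ℤ)) n))).Finite :=
    Set.Finite.pi fun _ => Set.Finite.pi fun _ => Set.finite_Icc _ _
  refine hfin.subset fun ω h => ?_
  intro i _ j _
  have h1 := SAW_bound h i j
  have h2 : ((i : ℕ) : ℤ) ≤ n := by exact_mod_cast Nat.lt_succ_iff.1 i.2
  exact ⟨by linarith [neg_abs_le (ω i j)], by linarith [le_abs_self (ω i j)]⟩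


theorem C_submul (d m n : ℕ) : C d (m + n) ≤ C d m * C d n := by
  unfold C
  rw [← Set.ncard_prod]
  let F : (Fin (m + n + 1) → (Fin d → ℤ)) →
      (Fin (m + 1) → (Fin d → ℤ)) × (Fin (n + 1) → (Fin d → ℤ)) := fun ω =>
    (fun i => ω ⟨i, by omega⟩, fun i => ω ⟨m + i, by omega⟩ - ω ⟨m, by omega⟩)
  refine Set.ncard_le_ncard_of_injOn F ?_ ?_ ((SAW_finite d m).prod (SAW_finite d n))
  · rintro ω ⟨h0, h1, h2⟩
    refine ⟨⟨?_, ?_, ?_⟩, ⟨?_, ?_, ?_⟩⟩
    · exact h0
    · intro i
      exact h1 ⟨i, by omega⟩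
    · intro i j hij
      have := h2 hij
      simpa [Fin.ext_iff] using this
    · simp [F]
    · intro i
      have := h1 ⟨m + i, by omega⟩
      simp only [F, Pi.sub_apply, sub_sub_sub_cancel_right]
      exact this
    · intro i j hij
      have h3 : ω ⟨m + i, by omega⟩ = ω ⟨m + j, by omega⟩ := sub_left_injective hij
      have := h2 h3
      simpa [Fin.ext_iff] using this
  · intro ω hω ω' hω' h
    have e1 : ∀ i : Fin (m + 1), ω ⟨i, by omega⟩ = ω' ⟨i, by omega⟩ := fun i =>
      congrFun (congrArg Prod.fst h) i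
    have e2 : ∀ i : Fin (n + 1), ω ⟨m + i, by omega⟩ - ω ⟨m, by omega⟩ =
      ω' ⟨m + i, by omega⟩ - ω' ⟨m, by omega⟩ := fun i => congrFun (congrArg Prod.snd h) i
    have e3 : ω ⟨m, by omega⟩ = ω' ⟨m, by omega⟩ := e1 ⟨m, by omega⟩
    funext i
    rcases le_or_gt (i : ℕ) m with hi | hi
    · exact e1 ⟨i, by omega⟩
    · have := e2 ⟨i - m, by omega⟩
      rw [e3] at this
      have h4 := sub_left_injective this
      have h5 : (⟨m + (i - m), by omega⟩ : Fin (m + n + 1)) = i := by
        apply Fin.ext; simp; omega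
      simpa [h5] using h4

theorem C_pos (d n : ℕ) (hd : 1 ≤ d) : 1 ≤ C d n := by
  unfold C
  rw [Nat.one_le_iff_ne_zero, ne_eq, Set.ncard_eq_zero (SAW_finite d n)]
  refine Set.Nonempty.ne_empty ⟨fun i => Pi.single (⟨0, hd⟩ : Fin d) ((i : ℕ) : ℤ), ?_, ?_, ?_⟩
  · simp
  · intro i
    rw [Finset.sum_eq_single (⟨0, hd⟩ : Fin d)]
    · simp
    · intro j _ hj
      simp [Pi.single_eq_of_ne hj]
    · simp
  · intro i j hij
    have := congrFun hij ⟨0, hd⟩
    simp at this
    exact Fin.ext this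


/-! ### the connective constant -/

/-- `log C_n` -/
noncomputable def uu (d n : ℕ) : ℝ := Real.log (C d n)

theorem C_cast_pos (d n : ℕ) (hd : 1 ≤ d) : (0 : ℝ) < C d n := by
  exact_mod_cast C_pos d n hd

theorem uu_nonneg (d n : ℕ) : 0 ≤ uu d n := Real.log_natCast_nonneg _

theorem uu_subadd (d : ℕ) (hd : 1 ≤ d) : Subadditive (uu d) := by
  intro m n
  unfold uu
  rw [← Real.log_mul (C_cast_pos d m hd).ne' (C_cast_pos d n hd).ne']
  refine Real.log_le_log (C_cast_pos d _ hd) ?_
  exact_mod_cast C_submul d m n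

theorem uu_bdd (d : ℕ) : BddBelow (Set.range fun n : ℕ => uu d n / n) := by
  refine ⟨0, ?_⟩
  rintro _ ⟨n, rfl⟩
  exact div_nonneg (uu_nonneg d n) (Nat.cast_nonneg n)

theorem root_eq (d n : ℕ) (hd : 1 ≤ d) :
    (C d n : ℝ) ^ ((1 : ℝ) / (n : ℝ)) = Real.exp (uu d n / n) := by
  rw [Real.rpow_def_of_pos (C_cast_pos d n hd)]
  congr 1
  unfold uu
  ring

theorem mu_eq (d : ℕ) (hd : 1 ≤ d) : mu d = Real.exp (uu_subadd d hd).lim := by
  unfold mu
  refine Tendsto.limUnder_eq ?_
  simp only [root_eq d _ hd]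
  exact ((uu_subadd d hd).tendsto_lim (uu_bdd d)).rexp

theorem mu_pos (d : ℕ) (hd : 1 ≤ d) : 0 < mu d := by
  rw [mu_eq d hd]; exact Real.exp_pos _

theorem tendsto_root (d : ℕ) (hd : 1 ≤ d) :
    Tendsto (fun n : ℕ => (C d n : ℝ) ^ ((1 : ℝ) / (n : ℝ))) atTop (𝓝 (mu d)) := by
  rw [mu_eq d hd]
  simp only [root_eq d _ hd]
  exact ((uu_subadd d hd).tendsto_lim (uu_bdd d)).rexp

theorem r_pos (d n : ℕ) (hd : 1 ≤ d) : 0 < r d n :=
  div_pos (C_cast_pos d n hd) (pow_pos (mu_pos d hd) n)

theorem rt_pos (d n : ℕ) (hd : 1 ≤ d) : 0 < rt d n :=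
  div_pos (C_cast_pos d _ hd) (pow_pos (C_cast_pos d n hd) 2)

theorem log_r (d n : ℕ) (hd : 1 ≤ d) : Real.log (r d n) = uu d n - n * (uu_subadd d hd).lim := by
  unfold r
  rw [Real.log_div (C_cast_pos d n hd).ne' (pow_pos (mu_pos d hd) n).ne', Real.log_pow,
    mu_eq d hd, Real.log_exp]
  rfl

theorem log_rt (d n : ℕ) (hd : 1 ≤ d) :
    -Real.log (rt d n) = 2 * Real.log (r d n) - Real.log (r d (2 * n)) := by
  rw [log_r d n hd, log_r d (2 * n) hd]
  unfold rt
  rw [Real.log_div (C_cast_pos d _ hd).ne' (pow_pos (C_cast_pos d n hd) 2).ne', Real.log_pow]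
  unfold uu
  push_cast
  ring

theorem log_r_div (d : ℕ) (hd : 1 ≤ d) :
    Tendsto (fun n : ℕ => Real.log (r d n) / n) atTop (𝓝 0) := by
  have h1 := ((uu_subadd d hd).tendsto_lim (uu_bdd d)).sub_const (uu_subadd d hd).lim
  rw [sub_self] at h1
  refine h1.congr' ?_
  filter_upwards [eventually_gt_atTop 0] with n hn
  have hn' : (0 : ℝ) < n := by exact_mod_cast hn
  rw [log_r d n hd]
  field_simp

/-! ### the doubling lemma -/

theorem doubling (g : ℕ → ℝ) (hg : Tendsto (fun n : ℕ => g n / n) atTop (𝓝 0)) (N : ℕ)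
    (h : ∀ m, N ≤ m → g (2 * m) ≤ 2 * g m) (n : ℕ) (hn : N ≤ n) (hn1 : 1 ≤ n) : 0 ≤ g n := by
  have key : ∀ J : ℕ, g (2 ^ J * n) ≤ 2 ^ J * g n := by
    intro J
    induction J with
    | zero => simp
    | succ J ih =>
      have h1 : N ≤ 2 ^ J * n := hn.trans (Nat.le_mul_of_pos_left n (by positivity))
      have h2 := h _ h1
      have e : 2 ^ (J + 1) * n = 2 * (2 ^ J * n) := by ring
      rw [e]
      calc g (2 * (2 ^ J * n)) ≤ 2 * g (2 ^ J * n) := h2
        _ ≤ 2 * (2 ^ J * g n) := by linarith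
        _ = 2 ^ (J + 1) * g n := by ring
  have hn' : (0 : ℝ) < n := by exact_mod_cast hn1
  have h3 : Tendsto (fun J : ℕ => g (2 ^ J * n) / ((2 ^ J * n : ℕ) : ℝ)) atTop (𝓝 0) := by
    refine hg.comp ?_
    refine tendsto_atTop_mono (fun J => Nat.le_mul_of_pos_right (2 ^ J) hn1) ?_
    exact tendsto_pow_atTop_atTop_of_one_lt (by norm_num)
  have h4 : 0 ≤ g n / n := by
    refine le_of_tendsto h3 (Eventually.of_forall fun J => ?_)
    have h5 : ((2 ^ J * n : ℕ) : ℝ) = 2 ^ J * (n : ℝ) := by push_cast; ring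
    rw [h5, div_le_div_iff₀ (by positivity) hn']
    have := mul_le_mul_of_nonneg_right (key J) hn'.le
    linarith
  have := mul_nonneg h4 hn'.le
  rwa [div_mul_cancel₀ _ hn'.ne'] at this

theorem log_two_mul_div (α κ : ℝ) :
    Tendsto (fun n : ℕ => (α * Real.log (2 * n) + κ) / n) atTop (𝓝 0) := by
  have h0 : Tendsto (fun n : ℕ => Real.log (n : ℝ) / (n : ℝ)) atTop (𝓝 0) := by
    have := (Real.isLittleO_log_id_atTop.tendsto_div_nhds_zero).comp
      (tendsto_natCast_atTop_atTop (R := ℝ))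
    exact this
  have h1 : Tendsto (fun n : ℕ => (1 : ℝ) / (n : ℝ)) atTop (𝓝 0) :=
    tendsto_one_div_atTop_nhds_zero_nat
  have h2 := (h0.const_mul α).add (h1.const_mul (α * Real.log 2 + κ))
  rw [mul_zero, mul_zero, add_zero] at h2
  refine h2.congr' ?_
  filter_upwards [eventually_gt_atTop 0] with n hn
  have hn' : (0 : ℝ) < n := by exact_mod_cast hn
  rw [Real.log_mul (by norm_num) hn'.ne']
  field_simp
  ring

/-- from the intersection exponent to the growth exponent, lower bounds, in logarithmic form -/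
theorem lower_log (d : ℕ) (hd : 1 ≤ d) (α κ : ℝ) (N : ℕ)
    (h : ∀ m, N ≤ m → 1 ≤ m → α * Real.log m + κ ≤ -Real.log (rt d m)) (n : ℕ) (hn : N ≤ n)
    (hn1 : 1 ≤ n) : α * Real.log (2 * n) + κ ≤ Real.log (r d n) := by
  have h1 := doubling (fun n => Real.log (r d n) - (α * Real.log (2 * n) + κ)) ?_ (max N 1) ?_ n
    (max_le hn hn1) hn1
  · simpa using h1
  · have := (log_r_div d hd).sub (log_two_mul_div α κ)
    rw [sub_zero] at this
    refine this.congr fun n => ?_
    ring
  · intro m hm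
    have hm1 : N ≤ m := (le_max_left _ _).trans hm
    have hm2 : 1 ≤ m := (le_max_right _ _).trans hm
    have h2 := h m hm1 hm2
    rw [log_rt d m hd] at h2
    have hm' : (0 : ℝ) < m := by exact_mod_cast hm2
    have e1 : Real.log (2 * (m : ℝ)) = Real.log 2 + Real.log m :=
      Real.log_mul (by norm_num) hm'.ne'
    have e2 : Real.log (2 * ((2 * m : ℕ) : ℝ)) = Real.log 2 + (Real.log 2 + Real.log m) := by
      push_cast
      rw [Real.log_mul (by norm_num) (by positivity), e1]
    simp only [e1, e2]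
    nlinarith

theorem upper_log (d : ℕ) (hd : 1 ≤ d) (α κ : ℝ) (N : ℕ)
    (h : ∀ m, N ≤ m → 1 ≤ m → -Real.log (rt d m) ≤ α * Real.log m + κ) (n : ℕ) (hn : N ≤ n)
    (hn1 : 1 ≤ n) : Real.log (r d n) ≤ α * Real.log (2 * n) + κ := by
  have h1 := doubling (fun n => (α * Real.log (2 * n) + κ) - Real.log (r d n)) ?_ (max N 1) ?_ n
    (max_le hn hn1) hn1
  · simpa using h1
  · have := (log_two_mul_div α κ).sub (log_r_div d hd)
    rw [sub_zero] at this
    refine this.congr fun n => ?_
    ring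
  · intro m hm
    have hm1 : N ≤ m := (le_max_left _ _).trans hm
    have hm2 : 1 ≤ m := (le_max_right _ _).trans hm
    have h2 := h m hm1 hm2
    rw [log_rt d m hd] at h2
    have hm' : (0 : ℝ) < m := by exact_mod_cast hm2
    have e1 : Real.log (2 * (m : ℝ)) = Real.log 2 + Real.log m :=
      Real.log_mul (by norm_num) hm'.ne'
    have e2 : Real.log (2 * ((2 * m : ℕ) : ℝ)) = Real.log 2 + (Real.log 2 + Real.log m) := by
      push_cast
      rw [Real.log_mul (by norm_num) (by positivity), e1]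
    simp only [e1, e2]
    nlinarith


/-! ### multiplicative forms -/

theorem log_le_iff_rpow {x A α y : ℝ} (hx : 0 < x) (hA : 0 < A) (hy : 0 < y) :
    -Real.log x ≤ α * Real.log y + -Real.log A ↔ A * y ^ (-α) ≤ x := by
  rw [← Real.log_le_log_iff (by positivity) hx, Real.log_mul hA.ne' (by positivity),
    Real.log_rpow hy]
  constructor <;> intro h <;> linarith

theorem le_log_iff_rpow {x A α y : ℝ} (hx : 0 < x) (hA : 0 < A) (hy : 0 < y) :
    α * Real.log y + -Real.log A ≤ -Real.log x ↔ x ≤ A * y ^ (-α) := by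
  rw [← Real.log_le_log_iff hx (by positivity), Real.log_mul hA.ne' (by positivity),
    Real.log_rpow hy]
  constructor <;> intro h <;> linarith

theorem r_lower (d : ℕ) (hd : 1 ≤ d) (α A : ℝ) (hA : 0 < A) (N : ℕ) (hN : 1 ≤ N)
    (h : ∀ m, N ≤ m → rt d m ≤ A * (m : ℝ) ^ (-α)) (n : ℕ) (hn : N ≤ n) :
    (2 * (n : ℝ)) ^ α / A ≤ r d n := by
  have hn' : (0 : ℝ) < n := by exact_mod_cast (lt_of_lt_of_le hN hn)
  have h1 := lower_log d hd α (-Real.log A) N (fun m hm hm1 =>
    (le_log_iff_rpow (rt_pos d m hd) hA (by exact_mod_cast hm1)).2 (h m hm)) n hn (hN.trans hn)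
  rw [← Real.log_le_log_iff (by positivity) (r_pos d n hd), Real.log_div (by positivity) hA.ne',
    Real.log_rpow (by positivity)]
  linarith

theorem r_upper (d : ℕ) (hd : 1 ≤ d) (α A : ℝ) (hA : 0 < A) (N : ℕ) (hN : 1 ≤ N)
    (h : ∀ m, N ≤ m → A * (m : ℝ) ^ (-α) ≤ rt d m) (n : ℕ) (hn : N ≤ n) :
    r d n ≤ (2 * (n : ℝ)) ^ α / A := by
  have hn' : (0 : ℝ) < n := by exact_mod_cast (lt_of_lt_of_le hN hn)
  have h1 := upper_log d hd α (-Real.log A) N (fun m hm hm1 =>
    (log_le_iff_rpow (rt_pos d m hd) hA (by exact_mod_cast hm1)).2 (h m hm)) n hn (hN.trans hn)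
  rw [← Real.log_le_log_iff (r_pos d n hd) (by positivity), Real.log_div (by positivity) hA.ne',
    Real.log_rpow (by positivity)]
  linarith

theorem log_ratio : Tendsto (fun n : ℕ => Real.log (2 * n) / Real.log n) atTop (𝓝 1) := by
  have h1 : Tendsto (fun n : ℕ => Real.log (n : ℝ)) atTop atTop :=
    Real.tendsto_log_atTop.comp tendsto_natCast_atTop_atTop
  have h2 : Tendsto (fun n : ℕ => Real.log 2 / Real.log (n : ℝ) + 1) atTop (𝓝 (0 + 1)) :=
    (tendsto_const_nhds.div_atTop h1).add_const 1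
  rw [zero_add] at h2
  refine h2.congr' ?_
  filter_upwards [eventually_gt_atTop 1] with n hn
  have hn' : (1 : ℝ) < n := by exact_mod_cast hn
  have hl : 0 < Real.log n := Real.log_pos hn'
  rw [Real.log_mul (by norm_num) (by positivity)]
  field_simp

theorem exponent_iff (d : ℕ) (hd : 1 ≤ d) (β : ℝ) :
    Tendsto (fun n : ℕ => Real.log (r d n) / Real.log n) atTop (𝓝 β) ↔
      Tendsto (fun n : ℕ => -Real.log (rt d n) / Real.log n) atTop (𝓝 β) := by
  constructor
  · intro h
    have h2 : Tendsto (fun n : ℕ => Real.log (r d (2 * n)) / Real.log ((2 * n : ℕ) : ℝ)) atTop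
        (𝓝 β) := by
      refine h.comp (tendsto_atTop_mono (fun n => ?_) tendsto_id)
      show n ≤ 2 * n
      omega
    have h3 := (h.const_mul 2).sub (h2.mul log_ratio)
    have e : 2 * β - β * 1 = β := by ring
    rw [e] at h3
    refine h3.congr' ?_
    filter_upwards [eventually_gt_atTop 1] with n hn
    have hn' : (1 : ℝ) < n := by exact_mod_cast hn
    have hl : 0 < Real.log n := Real.log_pos hn'
    have hl2 : 0 < Real.log (2 * n) := Real.log_pos (by linarith)
    rw [log_rt d n hd]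
    push_cast
    field_simp
  · intro h
    rw [tendsto_order] at h
    obtain ⟨h1, h2⟩ := h
    have hpos : ∀ᶠ n : ℕ in atTop, 1 < n := eventually_gt_atTop 1
    rw [tendsto_order]
    constructor
    · intro a ha
      obtain ⟨b, hab, hb⟩ := exists_between ha
      obtain ⟨N, hN⟩ := eventually_atTop.1 ((h1 b hb).and hpos)
      have h3 : ∀ n, N ≤ n → b * Real.log (2 * n) ≤ Real.log (r d n) := by
        intro n hn
        have h4 := lower_log d hd b 0 N (fun m hm _ => by
          obtain ⟨h5, h6⟩ := hN m hm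
          have hm' : (1 : ℝ) < m := by exact_mod_cast h6
          have hl : 0 < Real.log m := Real.log_pos hm'
          rw [lt_div_iff₀ hl] at h5
          linarith) n hn (hN n hn).2.le
        linarith
      have h7 : Tendsto (fun n : ℕ => b * (Real.log (2 * n) / Real.log n)) atTop (𝓝 (b * 1)) :=
        log_ratio.const_mul b
      rw [mul_one] at h7
      filter_upwards [(tendsto_order.1 h7).1 a hab, eventually_ge_atTop N] with n hn1 hn2
      have h6 := (hN n hn2).2
      have hm' : (1 : ℝ) < n := by exact_mod_cast h6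
      have hl : 0 < Real.log n := Real.log_pos hm'
      refine hn1.trans_le ?_
      rw [← mul_div_assoc]
      exact div_le_div_of_nonneg_right (h3 n hn2) hl.le
    · intro a ha
      obtain ⟨b, hb, hab⟩ := exists_between ha
      obtain ⟨N, hN⟩ := eventually_atTop.1 ((h2 b hb).and hpos)
      have h3 : ∀ n, N ≤ n → Real.log (r d n) ≤ b * Real.log (2 * n) := by
        intro n hn
        have h4 := upper_log d hd b 0 N (fun m hm _ => by
          obtain ⟨h5, h6⟩ := hN m hm
          have hm' : (1 : ℝ) < m := by exact_mod_cast h6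
          have hl : 0 < Real.log m := Real.log_pos hm'
          rw [div_lt_iff₀ hl] at h5
          linarith) n hn (hN n hn).2.le
        linarith
      have h7 : Tendsto (fun n : ℕ => b * (Real.log (2 * n) / Real.log n)) atTop (𝓝 (b * 1)) :=
        log_ratio.const_mul b
      rw [mul_one] at h7
      filter_upwards [(tendsto_order.1 h7).2 a hab, eventually_ge_atTop N] with n hn1 hn2
      have h6 := (hN n hn2).2
      have hm' : (1 : ℝ) < n := by exact_mod_cast h6
      have hl : 0 < Real.log n := Real.log_pos hm'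
      refine lt_of_le_of_lt ?_ hn1
      rw [← mul_div_assoc]
      exact div_le_div_of_nonneg_right (h3 n hn2) hl.le

theorem amplitude_iff (d : ℕ) (hd : 1 ≤ d) (β A : ℝ) (hA : 0 < A) :
    Tendsto (fun n : ℕ => r d n / (n : ℝ) ^ β) atTop (𝓝 A) ↔
      Tendsto (fun n : ℕ => rt d n * (n : ℝ) ^ β) atTop (𝓝 (2 ^ β / A)) := by
  constructor
  · intro h
    have h2 : Tendsto (fun n : ℕ => r d (2 * n) / ((2 * n : ℕ) : ℝ) ^ β) atTop (𝓝 A) := by
      refine h.comp (tendsto_atTop_mono (fun n => ?_) tendsto_id)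
      show n ≤ 2 * n
      omega
    have h3 := ((h2.div (h.pow 2) (by positivity)).const_mul (2 ^ β))
    have e : (2 : ℝ) ^ β * (A / A ^ 2) = 2 ^ β / A := by field_simp
    rw [e] at h3
    refine h3.congr' ?_
    filter_upwards [eventually_gt_atTop 0] with n hn
    have hn' : (0 : ℝ) < n := by exact_mod_cast hn
    have h4 : rt d n = r d (2 * n) / r d n ^ 2 := by
      unfold rt r
      have := mu_pos d hd
      have := C_cast_pos d n hd
      field_simp
      ring
    rw [h4]
    have hr := r_pos d n hd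
    have e2 : ((2 * n : ℕ) : ℝ) ^ β = 2 ^ β * (n : ℝ) ^ β := by
      push_cast
      rw [Real.mul_rpow (by norm_num) hn'.le]
    have hnβ : 0 < (n : ℝ) ^ β := by positivity
    simp only [Pi.div_apply, Pi.pow_apply, e2]
    field_simp
  · intro h
    have hB : 0 < (2 : ℝ) ^ β / A := by positivity
    rw [tendsto_order] at h
    obtain ⟨h1, h2⟩ := h
    have hpos : ∀ᶠ n : ℕ in atTop, 0 < n := eventually_gt_atTop 0
    rw [tendsto_order]
    constructor
    · intro a ha
      -- need rt * n^β < 2^β / a' for some a < a' < A, a' > 0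
      obtain ⟨a', ha1, ha2⟩ := exists_between (max_lt ha hA)
      have ha' : 0 < a' := (le_max_right _ _).trans_lt ha1
      have haa' : a < a' := (le_max_left _ _).trans_lt ha1
      have hlt : (2 : ℝ) ^ β / A < 2 ^ β / a' := div_lt_div_of_pos_left (by positivity) ha' ha2
      obtain ⟨N, hN⟩ := eventually_atTop.1 ((h2 _ hlt).and hpos)
      filter_upwards [eventually_ge_atTop (max N 1)] with n hn
      have hn1 : N ≤ n := (le_max_left _ _).trans hn
      have hn' : (0 : ℝ) < n := by exact_mod_cast (hN n hn1).2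
      have h5 := r_lower d hd β (2 ^ β / a') (by positivity) (max N 1) (le_max_right _ _)
        (fun m hm => by
          obtain ⟨h6, h7⟩ := hN m ((le_max_left _ _).trans hm)
          have hm' : (0 : ℝ) < m := by exact_mod_cast h7
          rw [Real.rpow_neg hm'.le, ← div_eq_mul_inv, le_div_iff₀ (by positivity)]
          exact h6.le) n hn
      have e : (2 * (n : ℝ)) ^ β / (2 ^ β / a') = a' * (n : ℝ) ^ β := by
        rw [Real.mul_rpow (by norm_num) hn'.le]
        field_simp
      rw [e] at h5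
      rw [lt_div_iff₀ (by positivity)]
      have : 0 < (n : ℝ) ^ β := by positivity
      nlinarith
    · intro a ha
      have ha0 : 0 < a := hA.trans ha
      obtain ⟨a', ha1, ha2⟩ := exists_between ha
      have ha' : 0 < a' := hA.trans ha1
      have hlt : (2 : ℝ) ^ β / a' < 2 ^ β / A := div_lt_div_of_pos_left (by positivity) hA ha1
      obtain ⟨N, hN⟩ := eventually_atTop.1 ((h1 _ hlt).and hpos)
      filter_upwards [eventually_ge_atTop (max N 1)] with n hn
      have hn1 : N ≤ n := (le_max_left _ _).trans hn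
      have hn' : (0 : ℝ) < n := by exact_mod_cast (hN n hn1).2
      have h5 := r_upper d hd β (2 ^ β / a') (by positivity) (max N 1) (le_max_right _ _)
        (fun m hm => by
          obtain ⟨h6, h7⟩ := hN m ((le_max_left _ _).trans hm)
          have hm' : (0 : ℝ) < m := by exact_mod_cast h7
          rw [Real.rpow_neg hm'.le, ← div_eq_mul_inv, div_le_iff₀ (by positivity)]
          exact h6.le) n hn
      have e : (2 * (n : ℝ)) ^ β / (2 ^ β / a') = a' * (n : ℝ) ^ β := by
        rw [Real.mul_rpow (by norm_num) hn'.le]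
        field_simp
      rw [e] at h5
      rw [div_lt_iff₀ (by positivity)]
      have : 0 < (n : ℝ) ^ β := by positivity
      nlinarith

/-- Existence of the exponent `γ` is equivalent to existence of the intersection exponent, with
explicit bounds in both directions. -/
theorem result (d : ℕ) (hd : 1 ≤ d) :
    (∀ β : ℝ, Tendsto (fun n : ℕ => Real.log (r d n) / Real.log n) atTop (𝓝 β) ↔
      Tendsto (fun n : ℕ => -Real.log (rt d n) / Real.log n) atTop (𝓝 β)) ∧
    (∀ (a A : ℝ) (N : ℕ), 0 < A → 1 ≤ N → (∀ m, N ≤ m → rt d m ≤ A * (m : ℝ) ^ (-a)) →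
      ∀ n, N ≤ n → (2 * (n : ℝ)) ^ a / A ≤ r d n) ∧
    (∀ (b B : ℝ) (N : ℕ), 0 < B → 1 ≤ N → (∀ m, N ≤ m → B * (m : ℝ) ^ (-b) ≤ rt d m) →
      ∀ n, N ≤ n → r d n ≤ (2 * (n : ℝ)) ^ b / B) :=
  ⟨exponent_iff d hd, fun a A N hA hN h => r_lower d hd a A hA N hN h,
    fun b B N hB hN h => r_upper d hd b B hB N hN h⟩

end Pool.Agent.Helper42.SAW.IntersectionExponent
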